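import Mathlib

set_option autoImplicit false

namespace Pool.Agent.Results.MP_06c496_co.Full

open Complex Function Filter

/-- The vertex centroid. -/
noncomputable def cen {N : ℕ} (v : Fin N → ℂ) : ℂ := (∑ k, v k) / N

/-- One vertex-centroid move. -/
def Move {N : ℕ} (v w : Fin N → ℂ) : Prop :=
  ∃ i, v i ≠ cen v ∧ ∃ t : ℝ, w = update v i (v i + t * (cen v - v i))

/-- Simple polygon: distinct vertices, and two edges meet only in common endpoints. -/
def Simple {n : ℕ} (v : Fin (n + 3) → ℂ) : Prop :=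
  Injective v ∧ ∀ i j, i ≠ j → segment ℝ (v i) (v (i + 1)) ∩ segment ℝ (v j) (v (j + 1)) ⊆
    {v i, v (i + 1)} ∩ {v j, v (j + 1)}

/-- Convex regular polygon with the vertices in cyclic order (either orientation). -/
def Regular {N : ℕ} (v : Fin N → ℂ) : Prop :=
  ∃ z w : ℂ, w ≠ 0 ∧ ((∀ k : Fin N, v k = z + w * exp ((2 * Real.pi * k / N : ℝ) * I)) ∨
    (∀ k : Fin N, v k = z + w * exp ((-(2 * Real.pi * k / N) : ℝ) * I)))

def det (a b : ℂ) : ℝ := a.re * b.im - a.im * b.re

lemma Ygen {k : ℝ} (hk : 0 < k) (hk2 : k ≤ 1 / 2) (Q : ℝ → ℝ → ℝ → ℝ → Prop)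
    (hX : ∀ l p q r s, l ≠ 0 → Q p q r s → Q (k * r + l * (p - k * r)) (k * s + l * (q - k * s)) r s)
    (hY : ∀ l p q r s, l ≠ 0 → Q p q r s → Q p q (k * p + l * (r - k * p)) (k * q + l * (s - k * q)))
    (α β : ℝ) (hβ : β ≠ 0) (p q r s : ℝ) (h : Q p q r s) :
    Q p q (α * p + β * r) (α * q + β * s) := by
  set κ := (2 - k ^ 2) * (1 + k ^ 2) / (2 * k) with hκ
  have hY' : ∀ l p q r s, l ≠ 0 → Q p q r s →
      Q p q (κ * p + l * (r - κ * p)) (κ * q + l * (s - κ * q)) := by
    intro l p q r s hl h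
    have h1 := hX ((1 + k ^ 2) / k ^ 2) _ _ _ _ (by positivity) h
    have h2 := hY (1 / 2) _ _ _ _ (by norm_num) h1
    have h3 := hX l _ _ _ _ hl h2
    have h4 := hY 2 _ _ _ _ (by norm_num) h3
    have h5 := hX (k ^ 2 / (1 + k ^ 2)) _ _ _ _ (by positivity) h4
    convert h5 using 1 <;> (try rw [hκ]) <;> field_simp <;> ring
  have hne : κ - k ≠ 0 := by
    have : k < κ := by
      rw [hκ, lt_div_iff₀ (by positivity)]
      have h1 : k ^ 2 ≤ 1 / 4 := by nlinarith
      nlinarith [sq_nonneg k]
    linarith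
  have main : ∀ α β : ℝ, β ≠ 0 → α - k + β * κ ≠ 0 → ∀ p q r s, Q p q r s →
      Q p q (α * p + β * r) (α * q + β * s) := by
    intro α β hβ hμ p q r s h
    have h1 := hY' (β * (κ - k) / (α - k + β * κ)) _ _ _ _ (by positivity) h
    have h2 := hY ((α - k + β * κ) / (κ - k)) _ _ _ _ (by positivity) h1
    convert h2 using 1 <;> field_simp <;> ring
  by_cases hμ : α - k + β * κ = 0
  · have h1 := hY 2 _ _ _ _ (by norm_num) h
    have h2 := main (α + β / 2 * k) (β / 2) (by positivity) (by
      intro h0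
      have : β / 2 * (κ - k) = 0 := by linarith
      exact absurd this (by positivity)) _ _ _ _ h1
    convert h2 using 1 <;> ring
  · exact main α β hβ hμ p q r s h

lemma allQ {k : ℝ} (hk : 0 < k) (hk2 : k ≤ 1 / 2) (Q : ℝ → ℝ → ℝ → ℝ → Prop) (h0 : Q 1 0 0 1)
    (hX : ∀ l p q r s, l ≠ 0 → Q p q r s → Q (k * r + l * (p - k * r)) (k * s + l * (q - k * s)) r s)
    (hY : ∀ l p q r s, l ≠ 0 → Q p q r s → Q p q (k * p + l * (r - k * p)) (k * q + l * (s - k * q)))
    (p q r s : ℝ) (hd : p * s - q * r ≠ 0) : Q p q r s := by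
  have Y := Ygen hk hk2 Q hX hY
  have X := Ygen hk hk2 (fun p q r s => Q r s p q) (fun l p q r s hl h => hY l r s p q hl h)
    (fun l p q r s hl h => hX l r s p q hl h)
  by_cases hp : p = 0
  · subst hp
    have hq : q ≠ 0 := by rintro rfl; simp at hd
    have hr : r ≠ 0 := by rintro rfl; simp at hd
    have h1 := Y 1 1 one_ne_zero _ _ _ _ h0
    have h2 := X q (-q) (neg_ne_zero.2 hq) _ _ _ _ h1
    have h3 := Y ((s - r) / q) r hr _ _ _ _ h2
    convert h3 using 1 <;> field_simp <;> ring
  · have h1 := X q p hp _ _ _ _ h0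
    have h2 := Y (r / p) ((p * s - q * r) / p) (by positivity) _ _ _ _ h1
    convert h2 using 1 <;> field_simp <;> ring

lemma sum_upd {N : ℕ} (v : Fin N → ℂ) (i : Fin N) (x : ℂ) :
    ∑ k, update v i x k = ∑ k, v k - v i + x := by
  rw [Finset.sum_update_of_mem (Finset.mem_univ i), Finset.sdiff_singleton_eq_erase,
    ← Finset.add_sum_erase _ _ (Finset.mem_univ i)]
  ring

/-- Centroid of the vertices other than `i, j`. -/
noncomputable def cc {n : ℕ} (v : Fin (n + 3) → ℂ) (i j : Fin (n + 3)) : ℂ :=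
  (∑ k, v k - v i - v j) / ((n + 1 : ℝ) : ℂ)

def D {n : ℕ} (v : Fin (n + 3) → ℂ) (i j : Fin (n + 3)) : Prop :=
  det (v i - cc v i j) (v j - cc v i j) ≠ 0

lemma D_symm {n : ℕ} {v : Fin (n + 3) → ℂ} {i j : Fin (n + 3)} (h : D v i j) : D v j i := by
  have : cc v j i = cc v i j := by unfold cc; ring
  unfold D det at *
  rw [this]
  intro h0; apply h; linarith

lemma D_ne {n : ℕ} {v : Fin (n + 3) → ℂ} {i j : Fin (n + 3)} (h : D v i j) : i ≠ j := by
  rintro rfl
  apply h; unfold det; ring

lemma step {n : ℕ} (v : Fin (n + 3) → ℂ) (i j : Fin (n + 3)) (h : D v i j) (l : ℝ) :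
    Move v (update v i (cc v i j + (((1 / (n + 2) : ℝ) : ℂ) * (v j - cc v i j) +
      l * ((v i - cc v i j) - ((1 / (n + 2) : ℝ) : ℂ) * (v j - cc v i j))))) := by
  have h1 : ((n : ℂ) + 1) ≠ 0 := by exact_mod_cast Nat.succ_ne_zero n
  have h2 : ((n : ℂ) + 2) ≠ 0 := by exact_mod_cast Nat.succ_ne_zero (n + 1)
  have h3 : ((n : ℂ) + 3) ≠ 0 := by exact_mod_cast Nat.succ_ne_zero (n + 2)
  have hc : cen v = cc v i j + ((v i - cc v i j) + (v j - cc v i j)) / ((n : ℂ) + 3) := by
    unfold cen cc; push_cast; field_simp; ring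
  refine ⟨i, fun he => h ?_, (1 - l) * (n + 3) / (n + 2), ?_⟩
  · have : v j - cc v i j = ((n + 2 : ℝ) : ℂ) * (v i - cc v i j) := by
      rw [hc] at he
      field_simp at he
      push_cast
      linear_combination -he
    rw [this]
    unfold det
    simp only [re_ofReal_mul, im_ofReal_mul]
    ring
  · congr 1
    rw [hc]; push_cast; field_simp; ring

lemma pair {n : ℕ} (v : Fin (n + 3) → ℂ) (i j : Fin (n + 3)) (h : D v i j) (x y : ℂ)
    (hxy : det (x - cc v i j) (y - cc v i j) ≠ 0) :
    Relation.ReflTransGen Move v (update (update v i x) j y) := by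
  have hij := D_ne h
  set c := cc v i j with hc
  set a := v i - c with ha
  set b := v j - c with hb
  have hd : det a b ≠ 0 := h
  have f1 : ∀ x y, update (update v i x) j y i = x := fun x y => by
    rw [update_of_ne hij, update_self]
  have f2 : ∀ x y, update (update v i x) j y j = y := fun x y => update_self _ _ _
  have f3 : ∀ x y, cc (update (update v i x) j y) i j = c := by
    intro x y
    rw [hc]; unfold cc
    rw [f1, f2, sum_upd, sum_upd, update_of_ne hij.symm]
    ring
  have f4 : ∀ x y, cc (update (update v i x) j y) j i = c := by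
    intro x y
    rw [← f3 x y]; unfold cc; ring
  have dd : ∀ p q r s : ℝ, det (p * a + q * b) (r * a + s * b) = (p * s - q * r) * det a b := by
    intro p q r s
    unfold det
    simp only [add_re, add_im, re_ofReal_mul, im_ofReal_mul]
    ring
  have hD : ∀ p q r s : ℝ, p * s - q * r ≠ 0 →
      D (update (update v i (c + (p * a + q * b))) j (c + (r * a + s * b))) i j := by
    intro p q r s h1
    unfold D
    rw [f1, f2, f3, add_sub_cancel_left, add_sub_cancel_left, dd]
    exact mul_ne_zero h1 hd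
  have hn : (0 : ℝ) ≤ n := Nat.cast_nonneg n
  have key := allQ (k := 1 / (n + 2)) (by positivity)
    (by rw [div_le_div_iff₀ (by positivity) (by norm_num)]; linarith)
    (fun p q r s => p * s - q * r ≠ 0 ∧ Relation.ReflTransGen Move v
      (update (update v i (c + (p * a + q * b))) j (c + (r * a + s * b))))
    ⟨by norm_num, by simp [ha, hb, Relation.ReflTransGen.refl]⟩
    (by
      rintro l p q r s hl ⟨h1, h2⟩
      refine ⟨fun h0 => mul_ne_zero hl h1 (by linear_combination h0), h2.tail ?_⟩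
      have := step _ i j (hD p q r s h1) l
      rw [f1, f2, f3, update_comm hij, update_idem, update_comm hij.symm, update_comm hij.symm] at this
      convert this using 3
      push_cast; ring)
    (by
      rintro l p q r s hl ⟨h1, h2⟩
      refine ⟨fun h0 => mul_ne_zero hl h1 (by linear_combination h0), h2.tail ?_⟩
      have := step _ j i (D_symm (hD p q r s h1)) l
      rw [f1, f2, f4, update_idem] at this
      convert this using 2
      push_cast; ring)
  have cr : ∀ z : ℂ, z = ((det z b / det a b : ℝ) : ℂ) * a + ((det a z / det a b : ℝ) : ℂ) * b := by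
    intro z
    apply Complex.ext <;> simp only [add_re, add_im, re_ofReal_mul, im_ofReal_mul] <;>
      field_simp <;> unfold det <;> ring
  have := key (det (x - c) b / det a b) (det a (x - c) / det a b) (det (y - c) b / det a b)
    (det a (y - c) / det a b) (by
      intro h0
      apply hxy
      rw [cr (x - c), cr (y - c), dd, h0, zero_mul])
  have h2 := this.2
  rwa [← cr, ← cr, add_sub_cancel, add_sub_cancel] at h2

lemma ev (q2 q1 q0 : ℝ) (h : 0 < q2) : ∀ᶠ s : ℝ in atTop, q2 * s ^ 2 + q1 * s + q0 ≠ 0 := by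
  filter_upwards [eventually_gt_atTop ((|q1| + |q0|) / q2), eventually_gt_atTop 1] with s h1 h2
  rw [div_lt_iff₀ h] at h1
  have a1 := neg_abs_le q1
  have a0 := neg_abs_le q0
  have a2 := abs_nonneg q0
  have : 0 < q2 * s ^ 2 + q1 * s + q0 := by nlinarith
  exact this.ne'

lemma ev1 (c : ℂ) : ∀ᶠ s : ℝ in atTop, det (s - c) (s * I - c) ≠ 0 := by
  filter_upwards [ev 1 (-(c.re + c.im)) 0 one_pos] with s hs h0
  apply hs
  simp [det] at h0
  linarith

lemma ev2 (u R : ℂ) (m : ℝ) (hm : 0 < m) :
    ∀ᶠ s : ℝ in atTop, det (u - (R + s * I) / m) (s - (R + s * I) / m) ≠ 0 := by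
  filter_upwards [ev (1 / m) (-(u.re / m) - u.im + R.im / m) (-(u.re * R.im / m) + u.im * R.re / m)
    (by positivity)] with s hs h0
  apply hs
  simp [det, div_ofReal_re, div_ofReal_im] at h0
  linear_combination h0

lemma setv {n : ℕ} (v : Fin (n + 3) → ℂ) (a b i : Fin (n + 3)) (h : D v a b) (hia : i ≠ a)
    (hib : i ≠ b) (T : ℂ) :
    (∃ w, Relation.ReflTransGen Move v w ∧ D w a i) ∧
    ∃ w, Relation.ReflTransGen Move v w ∧ D w a b ∧ w i = T ∧
      ∀ k, k ≠ a → k ≠ b → k ≠ i → w k = v k := by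
  have hab := D_ne h
  set R := ∑ k, v k - v a - v b - v i with hR
  have hm : (0 : ℝ) < n + 1 := by positivity
  obtain ⟨s, s1, s2, s3, s4⟩ := ((ev1 (cc v a b)).and ((ev1 ((R + T) / ((n + 1 : ℝ) : ℂ))).and
    ((ev2 (v i) R _ hm).and (ev2 T R _ hm)))).exists
  set w := update (update v a (s : ℂ)) b (s * I) with hw
  have r1 : Relation.ReflTransGen Move v w := pair v a b h _ _ s1
  have wa : w a = s := by rw [hw, update_of_ne hab, update_self]
  have wb : w b = s * I := update_self _ _ _
  have wi : w i = v i := by rw [hw, update_of_ne hib, update_of_ne hia]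
  have ws : ∑ k, w k = R + v i + s + s * I := by
    rw [hw, sum_upd, sum_upd, update_of_ne hab.symm, hR]; ring
  have c1 : cc w i a = (R + s * I) / ((n + 1 : ℝ) : ℂ) := by
    unfold cc; rw [ws, wa, wi]; ring
  have d1 : D w i a := by unfold D; rw [c1, wi, wa]; exact s3
  refine ⟨⟨w, r1, D_symm d1⟩, update (update w i T) a s, r1.trans (pair w i a d1 _ _ ?_), ?_, ?_, ?_⟩
  · rw [c1]; exact s4
  · have e1 : update (update w i T) a (s : ℂ) b = s * I := by
      rw [update_of_ne hab.symm, update_of_ne hib.symm, wb]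
    have e2 : cc (update (update w i T) a (s : ℂ)) a b = (R + T) / ((n + 1 : ℝ) : ℂ) := by
      unfold cc
      rw [e1, update_self, sum_upd, sum_upd, update_of_ne hia.symm, ws, wa, wi]; ring
    unfold D
    rw [e2, e1, update_self]; exact s2
  · rw [update_of_ne hia, update_self]
  · intro k h1 h2 h3
    rw [update_of_ne h1, update_of_ne h3, hw, update_of_ne h2, update_of_ne h1]

lemma piv {n : ℕ} (v : Fin (n + 3) → ℂ) (a b i : Fin (n + 3)) (h : D v a b) (hia : i ≠ a) :
    ∃ w, Relation.ReflTransGen Move v w ∧ D w a i := by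
  by_cases hib : i = b
  · exact ⟨v, .refl, hib ▸ h⟩
  · exact (setv v a b i h hia hib 0).1

lemma reach {n : ℕ} (v T : Fin (n + 3) → ℂ) (i j a b : Fin (n + 3)) (h : D v i j) (hT : D T a b) :
    Relation.ReflTransGen Move v T := by
  have hab := D_ne hT
  have h1 : ∃ w, Relation.ReflTransGen Move v w ∧ D w a b := by
    by_cases hi : a = i
    · subst hi; exact piv v a j b h hab.symm
    · obtain ⟨w, r, d⟩ := piv v i j a h hi
      obtain ⟨w', r', d'⟩ := piv w a i b (D_symm d) hab.symm
      exact ⟨w', r.trans r', d'⟩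
  have h2 : ∀ S : Finset (Fin (n + 3)), ∃ w, Relation.ReflTransGen Move v w ∧ D w a b ∧
      ∀ k ∈ S, k ≠ a → k ≠ b → w k = T k := by
    intro S
    induction S using Finset.induction_on with
    | empty => obtain ⟨w, r, d⟩ := h1; exact ⟨w, r, d, by simp⟩
    | insert x S _ ih =>
      obtain ⟨w, r, d, e⟩ := ih
      by_cases hx : x = a ∨ x = b
      · refine ⟨w, r, d, fun k hk h1 h2 => ?_⟩
        rcases Finset.mem_insert.1 hk with rfl | hk
        · tauto
        · exact e k hk h1 h2
      · push Not at hx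
        obtain ⟨w', r', d', e1, e2⟩ := (setv w a b x d hx.1 hx.2 (T x)).2
        refine ⟨w', r.trans r', d', fun k hk h1 h2 => ?_⟩
        by_cases hkx : k = x
        · rw [hkx, e1]
        · rw [e2 k h1 h2 hkx]
          exact e k ((Finset.mem_insert.1 hk).resolve_left hkx) h1 h2
  obtain ⟨w, r, d, e⟩ := h2 Finset.univ
  have e3 : update (update w a (T a)) b (T b) = T := by
    funext k
    by_cases hb : k = b
    · rw [hb, update_self]
    · by_cases ha : k = a
      · rw [update_of_ne hb, ha, update_self]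
      · rw [update_of_ne hb, update_of_ne ha]; exact e k (Finset.mem_univ _) ha hb
  have e4 : cc w a b = cc T a b := by
    have := congrArg (fun f => ∑ k, f k) e3
    simp only [sum_upd, update_of_ne hab.symm] at this
    unfold cc
    rw [← this]; ring
  have := pair w a b d (T a) (T b) (by rw [e4]; exact hT)
  rw [e3] at this
  exact r.trans this

lemma exD {n : ℕ} (v : Fin (n + 3) → ℂ) (h : ¬ ∀ i j, det (v i - cen v) (v j - cen v) = 0) :
    ∃ i j, D v i j := by
  by_contra hh
  push Not at hh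
  apply h
  intro i j
  have h0 := hh i j
  unfold D at h0
  push Not at h0
  have h1 : ((n : ℂ) + 1) ≠ 0 := by exact_mod_cast Nat.succ_ne_zero n
  have h3 : ((n : ℂ) + 3) ≠ 0 := by exact_mod_cast Nat.succ_ne_zero (n + 2)
  set κ : ℝ := 1 / (n + 3) with hκ
  have e1 : v i - cen v = (v i - cc v i j) - κ * ((v i - cc v i j) + (v j - cc v i j)) := by
    unfold cen cc; rw [hκ]; push_cast; field_simp; ring
  have e2 : v j - cen v = (v j - cc v i j) - κ * ((v i - cc v i j) + (v j - cc v i j)) := by
    unfold cen cc; rw [hκ]; push_cast; field_simp; ring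
  rw [e1, e2]
  generalize v i - cc v i j = a at *
  generalize v j - cc v i j = b at *
  unfold det at *
  simp only [sub_re, sub_im, add_re, add_im, re_ofReal_mul, im_ofReal_mul]
  linear_combination (1 - 2 * κ) * h0

lemma simple_nc {n : ℕ} (v : Fin (n + 3) → ℂ) (hv : Simple v) :
    ¬ ∀ i j, det (v i - cen v) (v j - cen v) = 0 := by
  intro h
  obtain ⟨hinj, hs⟩ := hv
  have h01 : ∀ i : Fin (n + 3), i + 1 ≠ i := fun i hh => by
    have : (1 : Fin (n + 3)) = 0 := by simpa using hh
    exact absurd this (by simp)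
  obtain ⟨p, hp⟩ : ∃ p, v p - cen v ≠ 0 := by
    by_contra hh
    push Not at hh
    exact h01 0 (hinj (by linear_combination hh (0 + 1) - hh 0))
  set d := v p - cen v with hd
  have hN : 0 < d.re ^ 2 + d.im ^ 2 := by
    have := normSq_pos.2 hp
    rw [normSq_apply] at this; linarith
  have hx : ∀ k, ∃ s : ℝ, v k = cen v + s * d := by
    intro k
    refine ⟨((v k - cen v).re * d.re + (v k - cen v).im * d.im) / (d.re ^ 2 + d.im ^ 2), ?_⟩
    have h0 := h k p
    rw [← hd] at h0
    rw [← sub_eq_iff_eq_add']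
    generalize v k - cen v = z at *
    unfold det at h0
    apply Complex.ext <;> simp only [re_ofReal_mul, im_ofReal_mul] <;> field_simp
    · linear_combination d.im * h0
    · linear_combination -d.re * h0
  choose s hsv using hx
  have sinj : Injective s := fun x y hxy => hinj (by rw [hsv x, hsv y, hxy])
  obtain ⟨i, -, hi⟩ := Finset.exists_max_image Finset.univ s Finset.univ_nonempty
  have hj : i - 1 ≠ i := fun hh => h01 (i - 1) (by rw [sub_add_cancel, hh])
  have l1 : s (i + 1) < s i := lt_of_le_of_ne (hi _ (Finset.mem_univ _)) fun hh => h01 i (sinj hh)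
  have l2 : s (i - 1) < s i := lt_of_le_of_ne (hi _ (Finset.mem_univ _)) fun hh => hj (sinj hh)
  set t := (s i + max (s (i + 1)) (s (i - 1))) / 2 with ht
  have m1 := le_max_left (s (i + 1)) (s (i - 1))
  have m2 := le_max_right (s (i + 1)) (s (i - 1))
  have m3 := max_lt l1 l2
  have seg : ∀ k, s k < s i → s k ≤ t → cen v + t * d ∈ segment ℝ (v i) (v k) := by
    intro k h1 h2
    have h3 : 0 < s i - s k := by linarith
    refine ⟨(t - s k) / (s i - s k), (s i - t) / (s i - s k), div_nonneg (by linarith) h3.le,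
      div_nonneg (by linarith) h3.le, by field_simp; ring, ?_⟩
    rw [hsv i, hsv k]
    have h4 : ((s i : ℂ) - s k) ≠ 0 := by exact_mod_cast h3.ne'
    simp only [real_smul]
    push_cast
    field_simp
    ring
  have mem := hs i (i - 1) hj.symm ⟨seg _ l1 (by linarith), by
    rw [sub_add_cancel, segment_symm]; exact seg _ l2 (by linarith)⟩
  have fin : ∀ k, cen v + t * d = v k → t = s k := by
    intro k hk
    rw [hsv k] at hk
    have : ((t : ℂ) - s k) * d = 0 := by linear_combination hk
    rcases mul_eq_zero.1 this with h0 | h0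
    · have : t - s k = 0 := by exact_mod_cast h0
      linarith
    · exact absurd h0 hp
  rcases mem.1 with h0 | h0
  · have := fin _ h0; linarith
  · have := fin _ h0; linarith

theorem result (n : ℕ) (v : Fin (n + 3) → ℂ) (hv : Simple v) :
    ∃ w, Relation.ReflTransGen Move v w ∧ Regular w := by
  obtain ⟨i, j, h⟩ := exD v (simple_nc v hv)
  set T : Fin (n + 3) → ℂ := fun k => exp ((2 * Real.pi * k / (n + 3 : ℕ) : ℝ) * I) with hT
  have hn : (0 : ℝ) ≤ n := Nat.cast_nonneg n
  obtain ⟨a, b, hab⟩ := exD T (by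
    intro h0
    set θ : ℝ := 2 * Real.pi / (n + 3 : ℕ) with hθ
    have t0 : 0 < θ := by have := Real.pi_pos; positivity
    have t1 : θ < Real.pi := by
      rw [hθ, div_lt_iff₀ (by positivity)]; push_cast; nlinarith [Real.pi_pos]
    have hs := Real.sin_pos_of_pos_of_lt_pi t0 t1
    have hc : Real.cos θ < 1 := by nlinarith [Real.sin_sq_add_cos_sq θ, Real.cos_le_one θ]
    have e : ∀ k : Fin (n + 3), (T k).re = Real.cos (k * θ) ∧ (T k).im = Real.sin (k * θ) := by
      intro k
      have : (2 * Real.pi * k / (n + 3 : ℕ) : ℝ) = k * θ := by rw [hθ]; ring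
      simp only [hT]
      rw [this]
      exact ⟨exp_ofReal_mul_I_re _, exp_ofReal_mul_I_im _⟩
    have a1 := h0 ⟨1, by omega⟩ ⟨2, by omega⟩
    have a2 := h0 ⟨0, by omega⟩ ⟨1, by omega⟩
    have a3 := h0 ⟨0, by omega⟩ ⟨2, by omega⟩
    unfold det at a1 a2 a3
    simp only [sub_re, sub_im, (e _).1, (e _).2, Nat.cast_zero, Nat.cast_one, Nat.cast_ofNat,
      zero_mul, one_mul, Real.cos_zero, Real.sin_zero, Real.sin_two_mul, Real.cos_two_mul]
      at a1 a2 a3
    have : Real.sin θ * (1 - Real.cos θ) = 0 := by linear_combination (a1 + a2 - a3) / 2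
    exact absurd this (mul_pos hs (by linarith)).ne')
  exact ⟨T, reach v T i j a b h hab, 0, 1, one_ne_zero, Or.inl fun k => by simp [hT]⟩

end Pool.Agent.Results.MP_06c496_co.Full
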